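import Pool.Agent.Q80.DG.Main

/-!
For every `1 < p < ∞`, `p ≠ 2`, and for real as well as complex scalars there is an equivalent norm on `L_p[0,1]` for
which the Haar system is 1-greedy and for whose dual norm the Haar system of `L_q[0,1]`, `1/p + 1/q = 1`, is 1-greedy.

The definitions `leb`, `haarNK`, `haarFun`, `IsHaar`, `Expands`, `IsBasis`, `IsEquivalent`, `IsOneGreedy` are in the file
`Pool/Agent/Q98/SN/Defs.lean`.
-/

set_option autoImplicit false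

namespace Pool.Agent.Results.MP_f77f75_an.DualGreedyRenorming

open MeasureTheory Pool.Agent.Q98.SNDefs
open scoped ENNReal

/-- `N` is a norm on the `𝕜`-vector space `V`. -/
def IsNorm (𝕜 : Type) [RCLike 𝕜] {V : Type} [NormedAddCommGroup V] [NormedSpace 𝕜 V] (N : V → ℝ) : Prop :=
  (∀ f, 0 ≤ N f) ∧ (∀ f, N f = 0 ↔ f = 0) ∧ (∀ (t : 𝕜) (f : V), N (t • f) = ‖t‖ * N f) ∧
    ∀ f g, N (f + g) ≤ N f + N g

/-- The dual norm on `L_q` of a norm `N` on `L_p`: the supremum of `|∫ f g|` over all `f` with `N f ≤ 1`. -/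
noncomputable def dualNorm {𝕜 : Type} [RCLike 𝕜] {p : ℝ≥0∞} [Fact (1 ≤ p)] (q : ℝ≥0∞) [Fact (1 ≤ q)]
    (N : Lp 𝕜 p leb → ℝ) (g : Lp 𝕜 q leb) : ℝ :=
  sSup {r : ℝ | ∃ f : Lp 𝕜 p leb, N f ≤ 1 ∧ r = ‖∫ t, f t * g t ∂leb‖}

/-- The statement for the scalars `𝕜` and the exponents `p` and `q`: the Haar systems `h` of `L_p` and `h'` of `L_q` are
Schauder bases, and there is an equivalent norm `N` on `L_p` for which `h` is 1-greedy and for whose dual norm on `L_q`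
the system `h'` is 1-greedy. -/
def Answer (𝕜 : Type) [RCLike 𝕜] (p q : ℝ≥0∞) [Fact (1 ≤ p)] [Fact (1 ≤ q)] : Prop :=
  ∃ (h : ℕ → Lp 𝕜 p leb) (h' : ℕ → Lp 𝕜 q leb), IsHaar 𝕜 p h ∧ IsHaar 𝕜 q h' ∧ IsBasis 𝕜 h ∧ IsBasis 𝕜 h' ∧
    ∃ N : Lp 𝕜 p leb → ℝ, IsNorm 𝕜 N ∧ IsEquivalent N ∧ IsOneGreedy 𝕜 h N ∧ IsOneGreedy 𝕜 h' (dualNorm q N)

theorem result : ∀ (p q : ℝ≥0∞) [Fact (1 ≤ p)] [Fact (1 ≤ q)], 1 < p → p ≠ ∞ → p ≠ 2 → p⁻¹ + q⁻¹ = 1 →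
    Answer ℝ p q ∧ Answer ℂ p q := by
  intro p q _ _ h1 hpt h2 hpq
  have hr := Q80.DG.conj_real h1 hpt hpq
  obtain ⟨k1, kt, k2⟩ := Q80.DG.conj_range h1 hpt h2 hpq
  have : p.HolderConjugate q := ENNReal.holderConjugate_iff.mpr hpq
  constructor
  · obtain ⟨c, K, C, H⟩ := Q80.DG.gb_real p h1 hpt h2
    obtain ⟨c', K', C', H'⟩ := Q80.DG.gb_real q k1 kt k2
    obtain ⟨b, N, hN, hE, hG, hD⟩ := Q80.DG.main_of p q hr H (Q98.SN.isHaar_real p) (Q98.SN.isHaar_real q)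
    have : q.HolderConjugate p := inferInstance
    obtain ⟨b', _⟩ := Q80.DG.main_of q p hr.symm H' (Q98.SN.isHaar_real q) (Q98.SN.isHaar_real p)
    exact ⟨Q98.SN.hR p, Q98.SN.hR q, Q98.SN.isHaar_real p, Q98.SN.isHaar_real q, b, b', N, hN, hE, hG, hD⟩
  · obtain ⟨K, C, H⟩ := Q80.DG.gb_complex p h1 hpt h2
    obtain ⟨K', C', H'⟩ := Q80.DG.gb_complex q k1 kt k2
    obtain ⟨b, N, hN, hE, hG, hD⟩ := Q80.DG.main_of p q hr H (Q98.SN.isHaar_complex p) (Q98.SN.isHaar_complex q)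
    have : q.HolderConjugate p := inferInstance
    obtain ⟨b', _⟩ := Q80.DG.main_of q p hr.symm H' (Q98.SN.isHaar_complex q) (Q98.SN.isHaar_complex p)
    exact ⟨Q98.SN.hC p, Q98.SN.hC q, Q98.SN.isHaar_complex p, Q98.SN.isHaar_complex q, b, b', N, hN, hE, hG, hD⟩

end Pool.Agent.Results.MP_f77f75_an.DualGreedyRenorming
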